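import Mathlib

set_option autoImplicit false

namespace Pool.Agent.Results.MP_15b8d6_gt.Main

open Set Filter Topology Metric RealInnerProductSpace

variable {n : ℕ}

def m (X : Set (EuclideanSpace ℝ (Fin n))) (a : EuclideanSpace ℝ (Fin n)) :
    Set (EuclideanSpace ℝ (Fin n)) := {x ∈ X | dist a x = infDist a X}

def M (X : Set (EuclideanSpace ℝ (Fin n))) (l : ℝ) : Set (EuclideanSpace ℝ (Fin n)) :=
  {a | (m X a).Nontrivial ∧ ¬ ∃ c, m X a ⊆ closedBall c l}

theorem result (n : ℕ) (X : Set (EuclideanSpace ℝ (Fin n))) (hX : IsClosed X) (hne : X.Nonempty)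
    (l : ℝ) (hl : 0 < l) (p : EuclideanSpace ℝ (Fin n)) (hp : p ∈ convexHull ℝ X)
    (hd : l < infDist p X) : p ∈ ⋃ a ∈ M X l, ball a (infDist a X) := by
  let g (a : EuclideanSpace ℝ (Fin n)) : ℝ := infDist a X ^ 2 - ‖a - p‖ ^ 2
  have g1 : Continuous g := by
    have := continuous_infDist_pt X
    fun_prop
  have g2 (a x) : dist a x ^ 2 - ‖a - p‖ ^ 2 = ‖x - p‖ ^ 2 - 2 * ⟪a - p, x - p⟫ := by
    rw [dist_eq_norm, ← sub_sub_sub_cancel_right a x p, norm_sub_sq_real]
    ring
  have g3 (a) (x) (hx : x ∈ X) : g a ≤ ‖x - p‖ ^ 2 - 2 * ⟪a - p, x - p⟫ := g2 a x ▸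
    sub_le_sub_right (pow_le_pow_left₀ infDist_nonneg (infDist_le_dist_of_mem hx) 2) _
  have g4 : BddAbove (range g) := by
    have : p ∈ {y | ∃ B, ∀ a, g a ≤ B - 2 * ⟪a - p, y - p⟫} := by
      refine convexHull_min (fun x hx => Exists.intro _ fun a => g3 a x hx) ?_ hp
      rintro x ⟨B, hB⟩ y ⟨C, hC⟩ s t hs ht e
      refine ⟨s * B + t * C, fun a => ?_⟩
      rw [show s • x + t • y - p = s • (x - p) + t • (y - p) by
        rw [smul_sub, smul_sub, sub_add_sub_comm, ← add_smul, e, one_smul],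
        inner_add_right, inner_smul_right, inner_smul_right]
      have := add_le_add (mul_le_mul_of_nonneg_left (hB a) hs) (mul_le_mul_of_nonneg_left (hC a) ht)
      rw [← add_mul, e] at this
      linarith
    exact this.imp fun B h => forall_mem_range.2 fun a => by simpa using h a
  have g5 (a) : g a ≤ ⨆ a, g a := le_ciSup g4 a
  have g6 : l ^ 2 < ⨆ a, g a := (pow_lt_pow_left₀ hd hl.le two_ne_zero).trans_le (by simpa [g] using g5 p)
  generalize hS : ⨆ a, g a = S at g5 g6
  obtain ⟨b, hb⟩ : ∃ b, S - (S - l ^ 2) / 9 < g b := exists_lt_of_lt_ciSup (by linarith)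
  obtain ⟨ε, e1, e2, e3⟩ : ∃ ε : ℝ, 0 < ε ∧ ε < 1 ∧ ε * ‖b - p‖ ^ 2 < (S - l ^ 2) / 9 := by
    have h : Tendsto (fun ε : ℝ => ε * ‖b - p‖ ^ 2) (𝓝[>] 0) (𝓝 0) :=
      ((continuous_mul_const _).tendsto' _ _ (zero_mul _)).mono_left nhdsWithin_le_nhds
    exact ((h.eventually_lt_const (by linarith)).and (Ioo_mem_nhdsGT one_pos)).exists.imp
      fun ε h => ⟨h.2.1, h.2.2, h.1⟩
  obtain ⟨a, ha⟩ : ∃ a, ∀ y, g y - ε * ‖y - p‖ ^ 2 ≤ g a - ε * ‖a - p‖ ^ 2 := by
    refine Continuous.exists_forall_ge (by fun_prop) (tendsto_atBot_mono (fun y => sub_le_sub_right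
      (g5 y) _) (tendsto_atBot_add_const_left _ _ (tendsto_neg_atTop_atBot.comp
        (Tendsto.const_mul_atTop e1 ((tendsto_pow_atTop two_ne_zero).comp ?_)))))
    simpa only [dist_eq_norm] using tendsto_dist_right_cocompact_atTop p
  have a1 := ha b
  have a2 := g5 a
  have a3 := mul_nonneg e1.le (sq_nonneg ‖a - p‖)
  have key : ¬ ∃ c, m X a ⊆ closedBall c l := fun ⟨c, hc⟩ => by
    let t (k : ℕ) : ℝ := 1 / (k + 1)
    have t0 : Tendsto t atTop (𝓝 0) := tendsto_one_div_add_atTop_nhds_zero_nat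
    have t1 : Tendsto (fun k => a + t k • (a - c)) atTop (𝓝 a) := by
      simpa using (t0.smul_const (a - c)).const_add a
    choose x x1 x2 using fun k => hX.exists_infDist_eq_dist hne (a + t k • (a - c))
    have t2 := ((continuous_infDist_pt X).tendsto a).comp t1
    obtain ⟨y, -, φ, h1, h2⟩ := tendsto_subseq_of_frequently_bounded (x := x)
      (isBounded_closedBall (x := a) (r := 1 + (infDist a X + 1))) (Eventually.frequently (by
        filter_upwards [t1.eventually (closedBall_mem_nhds a one_pos),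
          t2.eventually_le_const (lt_add_one _)] with k k1 k2
        exact (dist_triangle_left _ _ _).trans
          ((add_comm _ _).trans_le (add_le_add k1 ((x2 k).symm.trans_le k2)))))
    have y1 : y ∈ X := hX.mem_of_tendsto h2 (.of_forall fun k => x1 _)
    have y2 : dist a y = infDist a X := tendsto_nhds_unique ((t1.comp h1.tendsto_atTop).dist h2)
      ((t2.comp h1.tendsto_atTop).congr fun k => x2 _)
    have y3 : -⟪a - c, y - p⟫ ≤ ε * (⟪a - c, a - p⟫ + 0 * ‖a - c‖ ^ 2) := by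
      refine le_of_tendsto_of_tendsto' ((tendsto_const_nhds.inner (h2.sub_const p)).neg)
        ((((t0.comp h1.tendsto_atTop).mul_const _).const_add _).const_mul ε) fun k => ?_
      have k0 : 0 < t (φ k) := Nat.one_div_pos_of_nat
      have k1 := ha (a + t (φ k) • (a - c))
      have k2 := g3 a _ (x1 (φ k))
      have k3 := g2 (a + t (φ k) • (a - c)) (x (φ k))
      simp only [g, x2] at k1
      rw [k3, add_sub_right_comm, inner_add_left, norm_add_sq_real, inner_smul_left,
        inner_smul_right, norm_smul, real_inner_comm (a - c) (a - p), Real.norm_of_nonneg k0.le] at k1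
      refine le_of_mul_le_mul_left ?_ k0
      simp only [g, conj_trivial, Function.comp] at k1 k2 ⊢
      nlinarith [mul_nonneg e1.le (sq_nonneg (t (φ k) * ‖a - c‖))]
    have y4 := pow_le_pow_left₀ dist_nonneg (hc ⟨y1, y2⟩ : dist y c ≤ l) 2
    have y5 := g2 a y
    have y6 := g2 c y
    have y7 := sq_nonneg ‖(c - p) + ε • (a - p)‖
    rw [← sub_sub_sub_cancel_right a c p, inner_sub_left (a - p), inner_sub_left (a - p),
      real_inner_self_eq_norm_sq] at y3
    rw [norm_add_sq_real, inner_smul_right, norm_smul, Real.norm_of_nonneg e1.le] at y7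
    rw [y2] at y5
    rw [dist_comm] at y4
    simp only [g] at a1 a2 hb
    nlinarith [mul_le_mul_of_nonneg_right e2.le a3]
  obtain ⟨x, x1, x2⟩ := hX.exists_infDist_eq_dist hne a
  refine mem_biUnion ⟨not_subsingleton_iff.1 fun h => key ⟨x, fun y hy => ?_⟩, key⟩ ?_
  · rw [h hy ⟨x1, x2.symm⟩]
    exact mem_closedBall_self hl.le
  · rw [mem_ball', dist_eq_norm]
    refine lt_of_pow_lt_pow_left₀ 2 infDist_nonneg ?_
    simp only [g] at a1 hb
    nlinarith

end Pool.Agent.Results.MP_15b8d6_gt.Main
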